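import Pool.Agent.helper85.AQ.SpecB
import Pool.Agent.helper39.FJ.SpecE

/-!
# Project aq: BFR
-/

set_option autoImplicit false

namespace Pool.Agent.AQ

open Polynomial Pool.Agent.HC Pool.Agent.HC.SJ Pool.Agent.SJ Pool.Agent.GJ Pool.Agent.TK Pool.Agent.CM
open Pool.Agent.TQJ Pool.Agent.TQG
open Pool.Agent.FJ (VT Om chiO rf rs IsFrobO)
open Pool.Agent.TD (zK DvK bC mK IsPhiK Stab)
open scoped TensorProduct NumberField

noncomputable section

theorem BFR_stab (O : ValuationSubring Om) (φ : Om ≃+* Om) (p : ℕ) (hp : p ≠ 0)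
    (h : IsFrobO O φ p) : Stab O φ := by
  intro x
  constructor
  · intro hx
    obtain ⟨y, hy, -⟩ := h ⟨x, hx⟩
    have h1 : (y : Om) = φ x := hy
    rw [← h1]
    exact y.2
  · intro hx
    by_contra hxO
    have hx0 : x ≠ 0 := by
      rintro rfl
      exact hxO O.zero_mem
    have hinv : x⁻¹ ∈ O := (O.mem_or_inv_mem x).resolve_left hxO
    obtain ⟨y, hy, hy2⟩ := h ⟨x⁻¹, hinv⟩
    have h1 : (y : Om) = φ x⁻¹ := hy
    have hnu : ¬ IsUnit (⟨x⁻¹, hinv⟩ : O) := by
      intro hu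
      obtain ⟨z, hz⟩ := hu.exists_right_inv
      have h2 : x⁻¹ * (z : Om) = 1 := congrArg Subtype.val hz
      have h3 : (z : Om) = x := by
        rw [inv_mul_eq_one₀ hx0] at h2
        exact h2.symm
      exact hxO (h3 ▸ z.2)
    have h4 : rs O ⟨x⁻¹, hinv⟩ = 0 := by
      rw [IsLocalRing.residue_eq_zero_iff]
      exact hnu
    rw [h4, zero_pow hp, IsLocalRing.residue_eq_zero_iff] at hy2
    apply hy2
    refine IsUnit.of_mul_eq_one ⟨φ x, hx⟩ (Subtype.ext ?_)
    change (y : Om) * φ x = 1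
    rw [h1, ← map_mul, inv_mul_cancel₀ hx0, map_one]

theorem BFR (hE2 : FJ.E2_stmt) : BFR_stmt := by
  intro p hp
  have hpp : p.Prime := Fact.out
  let L : IntermediateField ℚ Om := ⊥
  have : FiniteDimensional ℚ L := FiniteDimensional.of_finrank_pos (by rw [IntermediateField.finrank_bot]; exact one_pos)
  have : NumberField L := { to_charZero := inferInstance, to_finiteDimensional := this }
  have hnorm : Ideal.absNorm (Ideal.span {((p : ℕ) : 𝓞 L)}) = p := by
    rw [Ideal.absNorm_span_singleton]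
    have h1 : ((p : ℕ) : 𝓞 L) = algebraMap ℤ (𝓞 L) (p : ℤ) := by simp
    rw [h1, Algebra.norm_algebraMap, NumberField.RingOfIntegers.rank, IntermediateField.finrank_bot,
      pow_one, Int.natAbs_natCast]
  have hprime : (Ideal.span {((p : ℕ) : 𝓞 L)}).IsPrime :=
    Ideal.isPrime_of_irreducible_absNorm (by rw [hnorm]; exact hpp)
  have hbot : Ideal.span {((p : ℕ) : 𝓞 L)} ≠ ⊥ := by
    intro h
    rw [h, Ideal.absNorm_bot] at hnorm
    exact hpp.ne_zero hnorm.symm
  obtain ⟨O, σ, hF, hx⟩ := hE2 L (Ideal.span {((p : ℕ) : 𝓞 L)}) hprime hbot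
  rw [hnorm] at hF
  refine ⟨O, σ.toRingEquiv, ?_, BFR_stab O _ p hpp.ne_zero hF, hF⟩
  rw [CharP.charP_iff_prime_eq_zero hpp]
  obtain ⟨y, hy, hy2⟩ := hx ((p : ℕ) : 𝓞 L)
  have h1 := hy2.2 (Ideal.mem_span_singleton_self _)
  have h2 : y = ((p : ℕ) : O) := by
    apply Subtype.ext
    rw [hy]
    simp
  rw [h2, map_natCast] at h1
  exact h1

end

end Pool.Agent.AQ
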